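import Pool.Agent.U747.TwistF

/-!
There are continuum many pairwise non-commensurable profinite branch groups (on the ternary rooted
tree), each isomorphic to an open subgroup of a compactly generated expansive t.d.l.c. group.
-/

set_option autoImplicit false

open Pool.Agent.U747.Twist

namespace Pool.Agent.Results.MP_e2d4a1_al.ContinuumManyClasses

/-- For every set `S` of natural numbers there is a profinite branch group `U S` on the ternary
rooted tree which is expansively embeddable, and for `S ≠ S'` the groups `U S` and `U S'` are not
commensurable. -/
theorem result :
    ∃ U : Set ℕ → Subgroup (Equiv.Perm X),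
      (∀ S, IsProfiniteBranch (U S) ∧ ExpansivelyEmbeddable (U S)) ∧
        ∀ S S', S ≠ S' → ¬ Commensurable (U S) (U S') :=
  ⟨U, fun S => ⟨isBranch S, embeddable S⟩, fun _ _ h hc => h (not_commensurable hc)⟩

end Pool.Agent.Results.MP_e2d4a1_al.ContinuumManyClasses
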